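import Pool.Agent.E8helper47.CT3.Min
import Pool.Agent.Y274.CT.ExiCnt

/-!
Project CT3: the number of the primes (CT3-CNT).
-/

set_option autoImplicit false

open scoped Classical

namespace Pool.Agent.E8helper47.CT3

open Pool.Agent.Y692.QS
open Pool.Agent.Y715.T.Rs Pool.Agent.Y715.T.Rec
open Pool.Agent.Y703.CT
open Pool.Agent.E8helper20.CT3
open Pool.Agent.Y715.T.RecG (Pq)
open Pool.Agent.Y274.CT (coprime_dvd eq_of_dvd nr_three assoc_ns pq_ns not_dvd_star exists_one
  not_three)

theorem cnt3 : S_CNT3 := by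
  intro D hD J _ π e hdt hDp
  have hD0 := clsT_ne hD
  have hD3 := clsT_three hD
  -- divisors of D
  have hpD : ∀ x : Ei, x ∣ (D : Ei) ↔ x ∣ pD π e := by
    intro x
    rcases hDp with h | h
    · rw [h]
    · rw [h, dvd_neg]
  have hπD : ∀ j, π j ∣ (D : Ei) := by
    intro j
    rw [hpD]
    refine dvd_trans (dvd_pow_self (π j) ?_) (Finset.dvd_prod_of_mem _ (Finset.mem_univ j))
    intro h
    exact hdt.e0 j ((ZMod.val_eq_zero _).1 h)
  have hex : ∀ ρ : Ei, Pq ρ → ρ ∣ (D : Ei) → ∃ j, π j = ρ := by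
    intro ρ hρ hd
    rw [hpD] at hd
    obtain ⟨j, -, hj⟩ := (hρ.prime.dvd_finsetProd_iff _).1 hd
    exact ⟨j, (eq_of_dvd (hdt.pq j) hρ (hρ.prime.dvd_of_dvd_pow hj)).symm⟩
  have hinj : ∀ i j, π i = π j → i = j := by
    intro i j h
    by_contra hne
    exact hdt.nd i j hne (by rw [h])
  choose f hf1 hf2 hf3 using fun j => exists_p (hdt.pq j).prime
  have hfD : ∀ j, f j ∣ D := by
    intro j
    by_contra hcon
    exact coprime_dvd (hdt.pq j).prime ((Nat.Prime.coprime_iff_not_dvd (hf1 j)).2 hcon) (hf2 j)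
      (hπD j)
  have hfiff : ∀ j (p : ℕ), p.Prime → (f j = p ↔ π j ∣ (p : Ei)) := by
    intro j p hp
    constructor
    · rintro rfl
      exact hf2 j
    · intro h
      by_contra hne
      exact coprime_dvd (hdt.pq j).prime ((Nat.coprime_primes (hf1 j) hp).2 hne) (hf2 j) h
  have hmaps : ∀ j ∈ (Finset.univ : Finset J), f j ∈ D.primeFactors := fun j _ =>
    Nat.mem_primeFactors.2 ⟨hf1 j, hfD j, hD0⟩
  have hcard := Finset.card_eq_sum_card_fiberwise hmaps
  have hn3 : ∀ p : ℕ, p ∣ D → p ≠ 3 := by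
    rintro p hp rfl
    exact hD3 hp
  have hp2 : ∀ p ∈ D.primeFactors, (Finset.univ.filter fun j => f j = p).card = 2 := by
    intro p hp
    rw [Nat.mem_primeFactors] at hp
    obtain ⟨hpp, hpd, -⟩ := hp
    have hp1 := (hD.2 p hpp hpd).1
    have hpD' : (p : Ei) ∣ (D : Ei) := by
      obtain ⟨c, hc⟩ := hpd
      exact ⟨(c : Ei), by rw [hc]; push_cast; rfl⟩
    obtain ⟨σ, hσ, hσn⟩ := exists_one hpp hp1
    have hσp : (p : Ei) = σ * star σ := by
      rw [mul_star, hσn]
      push_cast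
      rfl
    have hσ3 : ¬ σ ∣ 3 := not_three hD3 hσ (dvd_trans ⟨star σ, hσp⟩ hpD')
    have hρ := pq_ns hσ hσ3
    set ρ := ns σ with hρd
    have hρn : nr ρ = p := by rw [hρd, nr_ns (nr_three hσ hσ3), hσn]
    have hρp : (p : Ei) = ρ * star ρ := by
      rw [mul_star, hρn]
      push_cast
      rfl
    have hρs : Pq (star ρ) := by
      refine ⟨Pool.Agent.Y715.T.RecC.star_prime hρ.prime, ?_⟩
      have h1 := Pool.Agent.Y715.T.RecC.star_dvd hρ.three
      rw [star_sub, star_one] at h1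
      have h2 : star (3 : Ei) = 3 := by decide
      rwa [h2] at h1
    have hne : ¬ ρ ∣ star ρ := not_dvd_star hpp (hn3 p hpd) hρn
    obtain ⟨i, hi⟩ := hex ρ hρ (dvd_trans ⟨star ρ, hρp⟩ hpD')
    obtain ⟨i', hi'⟩ := hex (star ρ) hρs (dvd_trans ⟨ρ, by rw [hρp, mul_comm]⟩ hpD')
    rw [Finset.card_eq_two]
    refine ⟨i, i', ?_, ?_⟩
    · rintro rfl
      apply hne
      have h1 : star ρ = ρ := by
        rw [← hi']
        exact hi
      rw [h1]
    · ext j
      rw [Finset.mem_filter, Finset.mem_insert, Finset.mem_singleton, hfiff j p hpp]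
      constructor
      · rintro ⟨-, h⟩
        rw [hρp] at h
        rcases (hdt.pq j).prime.dvd_or_dvd h with h | h
        · left
          apply hinj
          rw [hi]
          exact eq_of_dvd hρ (hdt.pq j) h
        · right
          apply hinj
          rw [hi']
          exact eq_of_dvd hρs (hdt.pq j) h
      · rintro (rfl | rfl)
        · refine ⟨Finset.mem_univ _, ?_⟩
          rw [hi, hρp]
          exact dvd_mul_right _ _
        · refine ⟨Finset.mem_univ _, ?_⟩
          rw [hi', hρp]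
          exact dvd_mul_left _ _
  rw [Finset.card_univ, Finset.sum_congr rfl hp2, Finset.sum_const, smul_eq_mul] at hcard
  rw [hcard]
  omega

end Pool.Agent.E8helper47.CT3
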