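import Pool.Agent.E8helper47.CT3.Min
import Pool.Agent.Y145.CT.Tam

/-! Tamagawa numbers of `y² + 3 D y = x³` (CT3-TAM). -/

set_option autoImplicit false

open scoped Classical

namespace Pool.Agent.E8helper47.CT3

open Pool.Agent.Y700 (SingRed E0 tam S_E0 PtP)
open Pool.Agent.Y703.CT (WD Base tamProd S_TAM)
open Pool.Agent.E8helper20.CT3
open Pool.Agent.Y145.CT
open Pool.Agent.Y809.BSD14 (nadd nsub nmul npow nneg ladd lsub lmul lmul' norm_eq_of_lt)
open WeierstrassCurve.Affine (Point)

/-- the Tamagawa number at `3` when `3 ∣ D` and `27 ∤ D` (any odd prime with the same condition) -/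
theorem tam_dvd' {p : ℕ} [Fact p.Prime] {D : ℤ} (hE : S_E0) (hp2 : p ≠ 2) (h1 : (p : ℤ) ∣ D)
    (h3 : ¬ (p : ℤ) ^ 3 ∣ D) : tam (WD D) p = 3 := by
  have hD0 : D ≠ 0 := by rintro rfl; exact h3 (dvd_zero _)
  have hD : (D : ℚ_[p]) ≠ 0 := by exact_mod_cast hD0
  have hp1 : (1 : ℝ) < p := by exact_mod_cast (Fact.out : p.Prime).one_lt
  have hn := Padic.norm_eq_zpow_neg_valuation hD
  have hv1 : 1 ≤ (D : ℚ_[p]).valuation := by
    have h := (Padic.norm_int_le_pow_iff_dvd (p := p) D 1).2 (by simpa using h1)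
    rw [hn, zpow_le_zpow_iff_right₀ hp1] at h
    push_cast at h
    omega
  have hv2 : (D : ℚ_[p]).valuation ≤ 2 := by
    have h := mt (Padic.norm_int_le_pow_iff_dvd (p := p) D 3).1 (by simpa using h3)
    rw [hn, zpow_le_zpow_iff_right₀ hp1] at h
    push_cast at h
    omega
  have hDl : ‖(D : ℚ_[p])‖ < 1 := (norm_lt_one_iff_val hD).2 hv1
  have n2 : ‖(2 : ℚ_[p])‖ = 1 := by
    refine le_antisymm (by exact_mod_cast Padic.norm_int_le_one (p := p) 2) (not_lt.1 fun h => ?_)
    have h4 : (p : ℤ) ∣ 2 := by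
      refine Padic.norm_intCast_lt_one_iff.1 ?_
      exact_mod_cast h
    have h5 : p ∣ 2 := by exact_mod_cast h4
    exact hp2 ((Nat.prime_dvd_prime_iff_eq Fact.out Nat.prime_two).1 h5)
  have hsing : ∀ x y : ℚ_[p], y ^ 2 + D * y = x ^ 3 → (SingRed (WD D) p x y ↔ ‖x‖ < 1) := by
    intro x y he
    rw [sing_iff]
    constructor
    · rintro ⟨-, -, -, h⟩
      have h4 : ‖(2 : ℚ_[p]) * y‖ < 1 := by
        have e : (2 : ℚ_[p]) * y = (2 * y + D) - D := by ring
        rw [e]
        exact lsub h hDl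
      rw [norm_mul, n2, one_mul] at h4
      have h5 : ‖x ^ 3‖ < 1 := by
        rw [← he, pow_two]
        exact ladd (lmul h4.le h4) (lmul hDl.le h4)
      rw [norm_pow] at h5
      by_contra hc
      rw [not_lt] at hc
      have := one_le_pow₀ (n := 3) hc
      linarith
    · intro hx
      have hy : ‖y‖ < 1 := by
        by_contra hc
        rw [not_lt] at hc
        have h4 : ‖(D : ℚ_[p]) * y‖ < ‖y ^ 2‖ := by
          rw [norm_mul, norm_pow]
          nlinarith
        have h5 := norm_eq_of_lt h4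
        rw [he, norm_pow, norm_pow] at h5
        have h6 : ‖x‖ ^ 3 < 1 := pow_lt_one₀ (norm_nonneg _) hx (by norm_num)
        have h7 := one_le_pow₀ (n := 2) hc
        linarith
      refine ⟨hx.le, hy.le, ?_, ladd (lmul Pool.Agent.Y809.BSD14.n2 hy) hDl⟩
      rw [pow_two]
      refine lmul ?_ (lmul hx.le hx)
      exact_mod_cast Padic.norm_int_le_one (p := p) 3
  have hmem : ∀ {P : PtP (WD D) p} {x y : ℚ_[p]}, At P x y →
      (P ∈ E0 (WD D) p ↔ ¬ ‖x‖ < 1) := by
    intro P x y h
    rw [mem_iff hE h, hsing x y h.eqn]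
  obtain ⟨T, hT⟩ := exists_T (p := p) hD
  have hTn := hT.neg
  have hTT := T_add_T hD hT
  rw [tam]
  refine index_of_gen _ T 3 Nat.prime_three ?_ ?_ ?_
  · rw [hmem hT, norm_zero]
    norm_num
  · have : 3 • T = T + T + T := by abel
    rw [this, hTT, neg_add_cancel]
    exact zero_mem _
  · intro P
    by_cases hP : P ∈ E0 (WD D) p
    · exact ⟨0, by simpa using hP⟩
    have hP0 : P ≠ 0 := fun h0 => hP (by rw [h0]; exact zero_mem _)
    obtain ⟨x, y, hA⟩ := exists_at hP0
    have hx := (not_iff_comm.1 (hmem hA).symm).1 hP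
    by_cases hx0 : x = 0
    · subst hx0
      have e1 : y * (y + D) = 0 := by
        have := hA.eqn
        linear_combination this
      rcases mul_eq_zero.1 e1 with h | h
      · rw [h] at hA
        refine ⟨1, ?_⟩
        rw [one_zsmul, hA.ext hT, sub_self]
        exact zero_mem _
      · have h4 : y = -0 - (D : ℚ_[p]) := by linear_combination h
        rw [h4] at hA
        refine ⟨-1, ?_⟩
        rw [neg_one_zsmul, hA.ext hTn, sub_self]
        exact zero_mem _
    · have hx2 : x ^ 2 ≠ 0 := pow_ne_zero 2 hx0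
      have he := hA.eqn
      rcases trans_norm hD hv1 hv2 hx0 hx he with h | h
      · refine ⟨1, ?_⟩
        rw [one_zsmul, sub_eq_add_neg]
        obtain ⟨y3, h3⟩ := hA.add hTn hx0
        rw [hmem h3, not_lt]
        have e : ((y - (-0 - D)) / (x - 0)) ^ 2 - x - 0 = D * (y + D) / x ^ 2 := by
          rw [sub_zero, sub_zero, div_pow, eq_div_iff hx2, sub_mul, div_mul_cancel₀ _ hx2]
          linear_combination he
        rw [e]
        exact h
      · refine ⟨-1, ?_⟩
        rw [neg_one_zsmul, sub_neg_eq_add]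
        obtain ⟨y3, h3⟩ := hA.add hT hx0
        rw [hmem h3, not_lt]
        have e : ((y - 0) / (x - 0)) ^ 2 - x - 0 = -(D * y / x ^ 2) := by
          rw [sub_zero, sub_zero, sub_zero, div_pow, ← neg_div, eq_div_iff hx2, sub_mul,
            div_mul_cancel₀ _ hx2]
          linear_combination he
        rw [e, norm_neg]
        exact h

/-- CT3-TAM -/
theorem t_TAM3 : S_TAM3 := by
  intro hE D hB
  have hD0 := clsT_ne hB
  have hD3 := clsT_three hB
  have hcube := clsT_cube hB
  refine ⟨1, by norm_num, ?_⟩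
  have hfac : (WD ((3 * D : ℕ) : ℤ)).Δ.natAbs.primeFactors = insert 3 D.primeFactors := by
    rw [delta_eq, Int.natAbs_mul, Int.natAbs_pow, Int.natAbs_natCast]
    have e : Int.natAbs (-27) * (3 * D) ^ 4 = 3 ^ 7 * D ^ 4 := by
      have e : Int.natAbs (-27) = 3 ^ 3 := rfl
      rw [e]
      ring
    rw [e, Nat.primeFactors_mul (by norm_num) (pow_ne_zero 4 hD0),
      Nat.primeFactors_pow _ (by norm_num), Nat.primeFactors_pow _ (by norm_num),
      Nat.Prime.primeFactors Nat.prime_three]
    rfl
  have hnot : 3 ∉ D.primeFactors := by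
    intro h
    exact hD3 (Nat.dvd_of_mem_primeFactors h)
  have hall : ∀ p ∈ insert 3 D.primeFactors, (if h : p.Prime then (haveI := Fact.mk h;
      tam (WD ((3 * D : ℕ) : ℤ)) p) else 1) = 3 := by
    intro p hp
    have hpp : p.Prime := by
      rcases Finset.mem_insert.1 hp with rfl | h
      · exact Nat.prime_three
      · exact Nat.prime_of_mem_primeFactors h
    have hp2 : p ≠ 2 := by
      rcases Finset.mem_insert.1 hp with rfl | h
      · norm_num
      · rintro rfl
        have := (hB.2 2 hpp (Nat.dvd_of_mem_primeFactors h)).1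
        norm_num at this
    have hdvd : p ∣ 3 * D := by
      rcases Finset.mem_insert.1 hp with rfl | h
      · exact dvd_mul_right _ _
      · exact (Nat.dvd_of_mem_primeFactors h).mul_left 3
    have hndvd : ¬ p ^ 3 ∣ 3 * D := by
      intro h
      rcases Finset.mem_insert.1 hp with rfl | h'
      · apply hD3
        have h2 : 3 * 9 ∣ 3 * D := by simpa using h
        have h4 : 9 ∣ D := Nat.dvd_of_mul_dvd_mul_left (by norm_num) h2
        exact (by norm_num : 3 ∣ 9).trans h4
      · have hp3 : p ≠ 3 := by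
          rintro rfl
          exact hnot h'
        have hc : Nat.Coprime (p ^ 3) 3 :=
          Nat.Coprime.pow_left _ ((Nat.coprime_primes hpp Nat.prime_three).2 hp3)
        exact hcube p hpp (hc.dvd_of_dvd_mul_left h)
    rw [dif_pos hpp]
    have := Fact.mk hpp
    refine tam_dvd' hE hp2 ?_ ?_
    · exact_mod_cast hdvd
    · intro h
      apply hndvd
      exact_mod_cast h
  rw [tamProd, hfac, Finset.prod_congr rfl hall, Finset.prod_const,
    Finset.card_insert_of_notMem hnot, mul_one]

end Pool.Agent.E8helper47.CT3
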